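import Pool.Agent.Helper27.BE.Defs

/-!
# BE-15: powers of the augmentation ideal
-/

set_option autoImplicit false

namespace Pool.Agent.Helper76.BE

open Finset Pool.Agent.Helper27.BE

section aug
variable {p : ℕ} [Fact p.Prime] {B : Type} [Group B]

theorem dlt_one : dlt p B 1 = 0 := by
  unfold dlt
  rw [map_one, sub_self]

theorem dlt_mem_aug (g : B) : dlt p B g ∈ aug p B := Submodule.subset_span ⟨g, rfl⟩

theorem of_eq (g : B) : MonoidAlgebra.of (ZMod p) B g = 1 + dlt p B g := by
  unfold dlt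
  abel

theorem of_mul_dlt (h g : B) :
    MonoidAlgebra.of (ZMod p) B h * dlt p B g = dlt p B (h * g) - dlt p B h := by
  unfold dlt
  rw [map_mul, mul_sub, mul_one]
  abel

theorem dlt_mul_of (g h : B) :
    dlt p B g * MonoidAlgebra.of (ZMod p) B h = dlt p B (g * h) - dlt p B h := by
  unfold dlt
  rw [map_mul, sub_mul, one_mul]
  abel

theorem span_of : Submodule.span (ZMod p) (Set.range (MonoidAlgebra.of (ZMod p) B)) = ⊤ := by
  rw [eq_top_iff]
  intro x _
  induction x using MonoidAlgebra.induction_on with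
  | of g => exact Submodule.subset_span ⟨g, rfl⟩
  | add x y hx hy => exact Submodule.add_mem _ (hx trivial) (hy trivial)
  | smul r x hx => exact Submodule.smul_mem _ r (hx trivial)

theorem top_mul_aug : (⊤ : Submodule (ZMod p) (MonoidAlgebra (ZMod p) B)) * aug p B ≤ aug p B := by
  rw [← span_of, aug, Submodule.span_mul_span, Submodule.span_le]
  rintro _ ⟨_, ⟨h, rfl⟩, _, ⟨g, rfl⟩, rfl⟩
  change MonoidAlgebra.of (ZMod p) B h * dlt p B g ∈ aug p B
  rw [of_mul_dlt]
  exact Submodule.sub_mem _ (dlt_mem_aug _) (dlt_mem_aug _)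

theorem aug_mul_top : aug p B * (⊤ : Submodule (ZMod p) (MonoidAlgebra (ZMod p) B)) ≤ aug p B := by
  rw [← span_of, aug, Submodule.span_mul_span, Submodule.span_le]
  rintro _ ⟨_, ⟨g, rfl⟩, _, ⟨h, rfl⟩, rfl⟩
  change dlt p B g * MonoidAlgebra.of (ZMod p) B h ∈ aug p B
  rw [dlt_mul_of]
  exact Submodule.sub_mem _ (dlt_mem_aug _) (dlt_mem_aug _)

theorem Fil_zero : Fil p B 0 = ⊤ := by
  unfold Fil
  exact if_pos rfl

theorem Fil_pos {m : ℕ} (h : m ≠ 0) : Fil p B m = aug p B ^ m := by
  unfold Fil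
  exact if_neg h

theorem top_mul_Fil (j : ℕ) : ⊤ * Fil p B j ≤ Fil p B j := by
  rcases Nat.eq_zero_or_pos j with rfl | hj
  · rw [Fil_zero]; exact le_top
  · obtain ⟨k, rfl⟩ := Nat.exists_eq_succ_of_ne_zero hj.ne'
    rw [Fil_pos (Nat.succ_ne_zero k), pow_succ', ← mul_assoc]
    exact mul_le_mul' top_mul_aug le_rfl

theorem Fil_mul_top (j : ℕ) : Fil p B j * ⊤ ≤ Fil p B j := by
  rcases Nat.eq_zero_or_pos j with rfl | hj
  · rw [Fil_zero]; exact le_top
  · obtain ⟨k, rfl⟩ := Nat.exists_eq_succ_of_ne_zero hj.ne'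
    rw [Fil_pos (Nat.succ_ne_zero k), pow_succ, mul_assoc]
    exact mul_le_mul' le_rfl aug_mul_top

theorem Fil_mul (i j : ℕ) : Fil p B i * Fil p B j ≤ Fil p B (i + j) := by
  rcases Nat.eq_zero_or_pos i with rfl | hi
  · rw [zero_add, Fil_zero]; exact top_mul_Fil j
  rcases Nat.eq_zero_or_pos j with rfl | hj
  · rw [add_zero, Fil_zero]; exact Fil_mul_top i
  rw [Fil_pos hi.ne', Fil_pos hj.ne', Fil_pos (by omega), pow_add]

theorem Fil_anti (i : ℕ) : Fil p B (i + 1) ≤ Fil p B i := by
  rcases Nat.eq_zero_or_pos i with rfl | hi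
  · rw [Fil_zero]; exact le_top
  · rw [Fil_pos (by omega), pow_succ', Fil_pos hi.ne']
    refine (mul_le_mul' le_top le_rfl).trans ?_
    rw [← Fil_pos hi.ne']
    exact top_mul_Fil i

theorem Fil_succ (k : ℕ) : Fil p B (k + 1) ≤ aug p B * Fil p B k := by
  rcases Nat.eq_zero_or_pos k with rfl | hk
  · rw [Fil_zero, Fil_pos (by omega), zero_add, pow_one]
    intro a ha
    have := Submodule.mul_mem_mul ha (Submodule.mem_top :
      (1 : MonoidAlgebra (ZMod p) B) ∈ (⊤ : Submodule (ZMod p) (MonoidAlgebra (ZMod p) B)))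
    rwa [mul_one] at this
  · rw [Fil_pos (by omega), Fil_pos hk.ne', pow_succ']

theorem Fil_zero_le : Fil p B 0 ≤ Submodule.span (ZMod p) {1} ⊔ Fil p B 1 := by
  rw [Fil_zero, ← span_of, Submodule.span_le]
  rintro _ ⟨g, rfl⟩
  rw [of_eq, Fil_pos (by omega), pow_one]
  exact Submodule.add_mem_sup (Submodule.subset_span rfl) (dlt_mem_aug g)

theorem dlt_mul (g h : B) : dlt p B (g * h) = dlt p B g + dlt p B h + dlt p B g * dlt p B h := by
  unfold dlt
  rw [map_mul, mul_sub, sub_mul, mul_one, one_mul]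
  abel

theorem dlt_inv (g : B) : dlt p B g⁻¹ = -(MonoidAlgebra.of (ZMod p) B g⁻¹ * dlt p B g) := by
  rw [of_mul_dlt, inv_mul_cancel, dlt_one, zero_sub, neg_neg]

/-- the elements `g` with `g - 1` in the `i`-th power of the augmentation ideal form a subgroup -/
theorem exists_dimSub (i : ℕ) : ∃ E : Subgroup B, ∀ g, g ∈ E ↔ dlt p B g ∈ Fil p B i := by
  refine ⟨{ carrier := {g | dlt p B g ∈ Fil p B i}
            one_mem' := ?_
            mul_mem' := ?_
            inv_mem' := ?_ }, fun g => Iff.rfl⟩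
  · intro g h hg hh
    have hg' : dlt p B g ∈ Fil p B i := hg
    have hh' : dlt p B h ∈ Fil p B i := hh
    change dlt p B (g * h) ∈ Fil p B i
    rw [dlt_mul]
    refine Submodule.add_mem _ (Submodule.add_mem _ hg' hh') ?_
    exact Fil_mul_top i (Submodule.mul_mem_mul hg' Submodule.mem_top)
  · change dlt p B 1 ∈ Fil p B i
    rw [dlt_one]
    exact Submodule.zero_mem _
  · intro g hg
    have hg' : dlt p B g ∈ Fil p B i := hg
    change dlt p B g⁻¹ ∈ Fil p B i
    rw [dlt_inv]
    refine Submodule.neg_mem _ ?_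
    exact top_mul_Fil i (Submodule.mul_mem_mul Submodule.mem_top hg')

/-- A proper left ideal has a fixed vector in the quotient. -/
theorem exists_fixed [Finite B] (hB : IsPGroup p B)
    (I : Submodule (MonoidAlgebra (ZMod p) B) (MonoidAlgebra (ZMod p) B)) (hI : I ≠ ⊤) :
    ∃ a, a ∉ I ∧ ∀ g : B, dlt p B g * a ∈ I := by
  let _ : MulAction B (MonoidAlgebra (ZMod p) B ⧸ I) :=
    MulAction.compHom _ (MonoidAlgebra.of (ZMod p) B)
  have hfin : Finite (MonoidAlgebra (ZMod p) B) :=
    Module.finite_of_finite (ZMod p)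
  have hfin2 : Finite (MonoidAlgebra (ZMod p) B ⧸ I) :=
    Finite.of_surjective _ (Submodule.mkQ_surjective I)
  obtain ⟨b, hb⟩ : ∃ b, b ∉ I := by
    by_contra hcon
    push Not at hcon
    exact hI (eq_top_iff.2 fun x _ => hcon x)
  have hpz : ∀ a : MonoidAlgebra (ZMod p) B, p • a = 0 := by
    intro a
    have : ((p : ℕ) : ZMod p) • a = p • a := Nat.cast_smul_eq_nsmul (ZMod p) p a
    rw [← this, ZMod.natCast_self, zero_smul]
  have hdvd : p ∣ Nat.card (MonoidAlgebra (ZMod p) B ⧸ I) := by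
    have h1 : addOrderOf (Submodule.Quotient.mk b : MonoidAlgebra (ZMod p) B ⧸ I) = p := by
      apply addOrderOf_eq_prime
      · rw [← Submodule.Quotient.mk_smul, hpz, Submodule.Quotient.mk_zero]
      · intro h
        exact hb ((Submodule.Quotient.mk_eq_zero I).1 h)
    have h2 := addOrderOf_dvd_natCard
      (Submodule.Quotient.mk b : MonoidAlgebra (ZMod p) B ⧸ I)
    rwa [h1] at h2
  have h0 : (0 : MonoidAlgebra (ZMod p) B ⧸ I) ∈
      MulAction.fixedPoints B (MonoidAlgebra (ZMod p) B ⧸ I) := by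
    intro g
    exact smul_zero (MonoidAlgebra.of (ZMod p) B g)
  obtain ⟨y, hy, hy0⟩ := hB.exists_fixed_point_of_prime_dvd_card_of_fixed_point _ hdvd h0
  obtain ⟨a, rfl⟩ := Submodule.mkQ_surjective I y
  refine ⟨a, ?_, ?_⟩
  · intro ha
    apply hy0
    exact ((Submodule.Quotient.mk_eq_zero I).2 ha).symm
  · intro g
    have h1 : MonoidAlgebra.of (ZMod p) B g • (Submodule.mkQ I a) = Submodule.mkQ I a := hy g
    rw [← map_smul, ← sub_eq_zero, ← map_sub] at h1
    have h2 := (Submodule.Quotient.mk_eq_zero I).1 h1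
    have h3 : dlt p B g * a = MonoidAlgebra.of (ZMod p) B g • a - a := by
      unfold dlt
      rw [sub_mul, one_mul, smul_eq_mul]
    rw [h3]
    exact h2

/-- nilpotency of the augmentation ideal -/
theorem Fil_eq_bot [Finite B] (hB : IsPGroup p B) : ∃ N, 1 ≤ N ∧ Fil p B N = ⊥ := by
  have hfin : Finite (MonoidAlgebra (ZMod p) B) :=
    Module.finite_of_finite (ZMod p)
  have hN : IsNoetherian (MonoidAlgebra (ZMod p) B) (MonoidAlgebra (ZMod p) B) :=
    isNoetherian_of_finite _ _
  have key : ∀ I : Submodule (MonoidAlgebra (ZMod p) B) (MonoidAlgebra (ZMod p) B),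
      ∃ N, ∀ b ∈ Fil p B N, b ∈ I := by
    intro I
    induction I using WellFoundedGT.induction with
    | ind I ih =>
      by_cases hI : I = ⊤
      · exact ⟨0, fun b _ => by rw [hI]; exact Submodule.mem_top⟩
      · obtain ⟨a, ha, hfix⟩ := exists_fixed hB I hI
        let I' : Submodule (MonoidAlgebra (ZMod p) B) (MonoidAlgebra (ZMod p) B) :=
          { carrier := {a | ∀ b ∈ aug p B, b * a ∈ I}
            zero_mem' := fun b _ => by rw [mul_zero]; exact I.zero_mem
            add_mem' := fun {x y} hx hy b hb => by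
              rw [mul_add]; exact I.add_mem (hx b hb) (hy b hb)
            smul_mem' := fun c x hx b hb => by
              rw [smul_eq_mul, ← mul_assoc]
              exact hx _ (aug_mul_top (Submodule.mul_mem_mul hb Submodule.mem_top)) }
        have hle : I ≤ I' := fun x hx b _ => I.smul_mem b hx
        have haI' : a ∈ I' := by
          intro b hb
          unfold aug at hb
          induction hb using Submodule.span_induction with
          | mem x hx => obtain ⟨g, rfl⟩ := hx; exact hfix g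
          | zero => rw [zero_mul]; exact I.zero_mem
          | add x y _ _ hx hy => rw [add_mul]; exact I.add_mem hx hy
          | smul r x _ hx =>
            have : (r • x) * a = (algebraMap (ZMod p) (MonoidAlgebra (ZMod p) B) r) • (x * a) := by
              rw [smul_mul_assoc, Algebra.smul_def, smul_eq_mul]
            rw [this]
            exact I.smul_mem _ hx
        have hlt : I < I' := lt_of_le_of_ne hle fun h => ha (by rw [h]; exact haI')
        obtain ⟨N, hN⟩ := ih I' hlt
        refine ⟨N + 1, fun b hb => ?_⟩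
        exact Submodule.mul_induction_on (C := fun b => b ∈ I) (Fil_succ N hb)
          (fun m hm n hn => hN n hn m hm) (fun x y hx hy => I.add_mem hx hy)
  obtain ⟨N, hN⟩ := key ⊥
  refine ⟨N + 1, Nat.le_add_left 1 N, ?_⟩
  rw [eq_bot_iff]
  intro b hb
  exact hN b (Fil_anti N hb)

end aug

end Pool.Agent.Helper76.BE
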