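import Pool.Agent.Helper27.BE.Defs

/-!
# BE-7: the widths of the lower central series of a finite `p`-group
-/

set_option autoImplicit false

namespace Pool.Agent.Helper76.BE

open Finset Pool.Agent.Helper27.BE

theorem gam_anti (G : Type) [Group G] {i j : ℕ} (h : i ≤ j) : gam G j ≤ gam G i :=
  Subgroup.lowerCentralSeries_antitone _ (Nat.sub_le_sub_right h 1)

theorem gam_one (G : Type) [Group G] : gam G 1 = ⊤ := rfl

theorem gam_succ (G : Type) [Group G] {i : ℕ} (h : 1 ≤ i) : gam G (i + 1) = ⁅gam G i, ⊤⁆ := by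
  obtain ⟨k, rfl⟩ := Nat.exists_eq_succ_of_ne_zero (Nat.one_le_iff_ne_zero.1 h)
  rfl

theorem gam_stable (G : Type) [Group G] {i : ℕ} (h : 1 ≤ i) (he : gam G (i + 1) = gam G i) :
    ∀ j, i ≤ j → gam G j = gam G i := by
  intro j hj
  induction j, hj using Nat.le_induction with
  | base => rfl
  | succ j hj ih => rw [gam_succ G (h.trans hj), ih, ← gam_succ G h, he]

theorem wd_facts {p n : ℕ} (hp : p.Prime) (G : Type) [Group G] (hG : Nat.card G = p ^ n) :
    (∀ i, 1 ≤ i → (gam G (i + 1)).relIndex (gam G i) = p ^ wd G p i) ∧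
    ∃ C, gam G (C + 1) = ⊥ ∧ (∀ C', gam G (C' + 1) = ⊥ → C ≤ C') ∧
      (∀ i, 1 ≤ i → i ≤ C → 1 ≤ wd G p i) ∧ (∀ i, C < i → wd G p i = 0) ∧
      ∑ i ∈ Icc 1 C, wd G p i = n := by
  classical
  have : Fact p.Prime := ⟨hp⟩
  have hfin : Finite G := Nat.finite_of_card_ne_zero (by rw [hG]; exact pow_ne_zero _ hp.ne_zero)
  have h1 : ∀ i, 1 ≤ i → (gam G (i + 1)).relIndex (gam G i) = p ^ wd G p i := by
    intro i _
    have hd : (gam G (i + 1)).relIndex (gam G i) ∣ p ^ n := by
      rw [← hG]
      exact (Subgroup.relIndex_dvd_card _ _).trans (Subgroup.card_subgroup_dvd_card _)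
    obtain ⟨k, _, hk⟩ := (Nat.dvd_prime_pow hp).1 hd
    unfold wd
    rw [hk, padicValNat.prime_pow]
  refine ⟨h1, ?_⟩
  have hnil : Group.IsNilpotent G := (IsPGroup.of_card hG).isNilpotent
  have hex : ∃ C, gam G (C + 1) = ⊥ := by
    obtain ⟨c, hc⟩ := Subgroup.nilpotent_iff_lowerCentralSeries.1 hnil
    exact ⟨c, hc⟩
  refine ⟨Nat.find hex, Nat.find_spec hex, fun C' h => Nat.find_min' hex h, ?_, ?_, ?_⟩
  · intro i hi hiC
    by_contra hcon
    have h0 : wd G p i = 0 := by omega
    have h2 := h1 i hi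
    rw [h0, pow_zero, Subgroup.relIndex_eq_one] at h2
    have h3 : gam G (i + 1) = gam G i := le_antisymm (gam_anti G (Nat.le_succ i)) h2
    have h4 := gam_stable G hi h3 (Nat.find hex + 1) (by omega)
    rw [Nat.find_spec hex] at h4
    have h5 : gam G ((i - 1) + 1) = ⊥ := by
      rw [Nat.sub_add_cancel hi]; exact h4.symm
    have h6 := Nat.find_min' hex h5
    omega
  · intro i hi
    have h2 : gam G i = ⊥ := by
      rw [eq_bot_iff, ← Nat.find_spec hex]
      exact gam_anti G hi
    unfold wd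
    rw [h2, Subgroup.relIndex_bot_right, padicValNat_one_right]
  · have key : ∀ m, Nat.card (gam G (m + 1)) * p ^ (∑ i ∈ Icc 1 m, wd G p i) = p ^ n := by
      intro m
      induction m with
      | zero =>
        rw [zero_add, gam_one, Subgroup.card_top, hG]
        simp
      | succ m ih =>
        rw [Finset.sum_Icc_succ_top (by omega), pow_add, ← h1 (m + 1) (by omega), ← ih,
          mul_comm (p ^ _), ← mul_assoc]
        congr 1
        have h2 := Subgroup.relIndex_mul_relIndex (⊥ : Subgroup G) (gam G (m + 1 + 1))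
          (gam G (m + 1)) bot_le (gam_anti G (Nat.le_succ _))
        rw [Subgroup.relIndex_bot_left, Subgroup.relIndex_bot_left] at h2
        exact h2
    have h2 := key (Nat.find hex)
    rw [Nat.find_spec hex, Subgroup.card_bot, one_mul] at h2
    exact Nat.pow_right_injective hp.two_le h2

end Pool.Agent.Helper76.BE
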